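import Mathlib
import Pool.Agent.V11268.RD.Num

set_option autoImplicit false

namespace Pool.Agent.Results.MP_375d90_nt.ThreeQuarters

open Polynomial Pool.Agent.V11268.RD

theorem card_of_cofactor (f : (ZMod 2)[X]) (F N : ℕ) (hN : 1 ≤ N) (hf : 1 ≤ f.natDegree)
    (h : f * toP F = 1 + X ^ N) (k : ℕ) (hk : N ≤ 2 ^ k) : wt (toP F) N = pc k F := by
  have h1 := natDegree_S f (toP F) N hN hf h
  rw [← wt_toP, wt_eq_card _ _ h1, wt_eq_card _ _ (lt_of_lt_of_le h1 hk)]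

theorem one_dvd (g w : (ZMod 2)[X]) (h0 : g.coeff 0 = 1) (hw : w.coeff 0 = 1) :
    ((1 + X ^ 1) * g ^ 87 * w ^ 32 : (ZMod 2)[X]).coeff 0 = 1 ∧
    1 ≤ ((1 + X ^ 1) * g ^ 87 * w ^ 32 : (ZMod 2)[X]).natDegree := by
  have hc : ((1 + X ^ 1) * g ^ 87 * w ^ 32 : (ZMod 2)[X]).coeff 0 = 1 := by
    rw [coeff_zero_eq_eval_zero] at h0 hw ⊢
    rw [eval_mul, eval_mul, eval_pow, eval_pow, h0, hw]
    simp
  refine ⟨hc, ?_⟩
  have hne : ((1 + X ^ 1) * g ^ 87 * w ^ 32 : (ZMod 2)[X]) ≠ 0 := by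
    intro hz; rw [hz, coeff_zero] at hc; exact absurd hc (by decide)
  have hd : (1 + X ^ 1 : (ZMod 2)[X]).natDegree = 1 := by
    rw [pow_one, add_comm]
    exact natDegree_X_add_C (1 : ZMod 2)
  have := natDegree_le_of_dvd (Dvd.intro (g ^ 87 * w ^ 32) (by ring) :
    (1 + X ^ 1 : (ZMod 2)[X]) ∣ (1 + X ^ 1) * g ^ 87 * w ^ 32) hne
  rw [hd] at this
  exact this

/-- **`3/4` is a reciprocal density.** There is a binary polynomial `f` with constant term `1` and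
positive degree for which the proportion of ones in a period of `1 / f` is `3/4`. -/
theorem result : ∃ f : (ZMod 2)[X], f.coeff 0 = 1 ∧ 1 ≤ f.natDegree ∧ gam f = 3 / 4 := by
  obtain ⟨F, hF, hpc⟩ := exists_cofactor
  have hid := identity F 135296 hF
  have hg0 : (1 + X ^ 32 + X ^ 33 : (ZMod 2)[X]).coeff 0 = 1 := by
    rw [coeff_add, coeff_add, coeff_one_zero, coeff_X_pow, coeff_X_pow, if_neg (by norm_num),
      if_neg (by norm_num), add_zero, add_zero]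
  have hw0 : (w : (ZMod 2)[X]).coeff 0 = 1 := by
    rw [w, coeff_toP]; decide +kernel
  obtain ⟨h0, h1⟩ := one_dvd _ w hg0 hw0
  refine ⟨_, h0, h1, ?_⟩
  have hw := card_of_cofactor _ F 135296 (by norm_num) h1 hid 18 (by norm_num)
  rw [gam_eq _ _ 135296 (by norm_num) h0 h1 hid, hw, hpc]
  norm_num

end Pool.Agent.Results.MP_375d90_nt.ThreeQuarters
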